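import Pool.Agent.Lib.MP_d55432_al.SIX.Iface

/-!
# SIX, module EXIST: the sets of matrices of bounded rank are images
-/

namespace Pool.Agent.Lib.MP_d55432_al.SIX

open Matrix LieAlgebra MvPolynomial

attribute [local instance 100] LieRing.ofAssociativeRing

namespace ExistAux

theorem polyFun_reindex {K : Type*} [Field K] {L : Type*} [LieRing L] [LieAlgebra K L]
    {σ τ : Type*} (i : σ → τ) (g : (σ → L) → K) (hg : g ∈ PolyFun K L σ) :
    (fun a : τ → L => g (fun s => a (i s))) ∈ PolyFun K L τ :=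
  PolyFun_comp (PolyFun K L τ) g hg (fun s a => a (i s)) fun s ψ => PolyFun_coord (i s) ψ

theorem eq_zero_of_rank {K : Type*} [Field K] {n : Type*} [Fintype n] [DecidableEq n]
    {A : Matrix n n K} (h : A.rank = 0) : A = 0 := by
  have h2 : LinearMap.range A.mulVecLin = ⊥ := Submodule.finrank_eq_zero.1 h
  have h3 : A.mulVecLin = 0 := LinearMap.range_eq_bot.1 h2
  ext i j
  have h4 := congrFun (LinearMap.congr_fun h3 (Pi.single j 1)) i
  simpa using h4

variable {K : Type*} [Field K] [CharZero K]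

theorem scalar_iff (Θ : L6 K ≃ₗ⁅K⁆ L4 K) (κ : K) (hΘ : IsTheta Θ κ) (x : L6 K) :
    (∃ c : K, (Θ x).1 * (Θ x).1 = c • (1 : M4 K)) ↔ sharp x = 0 := by
  constructor
  · rintro ⟨c, hc⟩
    have h1 := hΘ.2 x
    rw [hc] at h1
    have h2 : κ • (Θ (sharp x)).1 = (c + s1 x.1 / 4) • (1 : M4 K) := by
      have h3 : κ • (Θ (sharp x)).1 = c • (1 : M4 K) - (-(s1 x.1) / 4) • (1 : M4 K) := by
        rw [h1]; abel
      rw [h3, ← sub_smul]
      congr 1
      ring
    have h3 : (Θ (sharp x)).1.trace = 0 := (mem_sl _).1 (Θ (sharp x)).2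
    have h4 := congrArg Matrix.trace h2
    rw [trace_smul, h3, smul_zero, trace_smul, trace_one, Fintype.card_fin, smul_eq_mul] at h4
    have h5 : c + s1 x.1 / 4 = 0 := by
      rcases mul_eq_zero.1 h4.symm with h | h
      · exact h
      · exact absurd h (by norm_num)
    rw [h5, zero_smul] at h2
    have h6 : (Θ (sharp x)).1 = 0 := (smul_eq_zero.1 h2).resolve_left hΘ.1
    have h7 : Θ (sharp x) = 0 := Subtype.ext h6
    have h8 : Θ (sharp x) = Θ 0 := by rw [h7, map_zero]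
    exact Θ.injective h8
  · intro h
    refine ⟨-(s1 x.1) / 4, ?_⟩
    have h1 := hΘ.2 x
    rw [h, map_zero] at h1
    rw [h1]
    change _ + κ • (0 : M4 K) = _
    rw [smul_zero, add_zero]

end ExistAux

open ExistAux in
/-- EXIST -/
theorem exist (K : Type*) [Field K] [IsAlgClosed K] [CharZero K] (hS : SIMPLE_S K)
    (hT : THETA_S K) (hP : PHI_S K) (hR : RANGE_S K) (hPoly : POLY_S K) (hD : DARB_S K) :
    EXIST_S K := by
  obtain ⟨Θ, κ, hΘ⟩ := hT
  have : LieAlgebra.IsSimple K (L6 K) := hS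
  obtain ⟨hpoly, hhom⟩ := hPoly Θ
  set f : (Fin 4 → L6 K) → L6 K := fun a =>
    Θ.symm (F4L (Θ (a 0)) (Θ (a 1)) (Θ (a 2)) (Θ (a 3))) with hf
  have heq : IsAutEquivariant K f := by
    intro φ a
    let ψ : L4 K ≃ₗ⁅K⁆ L4 K := (Θ.symm.trans φ).trans Θ
    have hψ : ∀ y, Θ (φ y) = ψ (Θ y) := by
      intro y
      change _ = Θ (φ (Θ.symm (Θ y)))
      rw [LieEquiv.symm_apply_apply]
    change Θ.symm (F4L (Θ (φ (a 0))) (Θ (φ (a 1))) (Θ (φ (a 2))) (Θ (φ (a 3)))) = φ (f a)
    rw [hψ, hψ, hψ, hψ, hP ψ]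
    change Θ.symm (Θ (φ (Θ.symm _))) = _
    rw [LieEquiv.symm_apply_apply]
  have hfh : ∀ (t : K) a, f (t • a) = t ^ 109 • f a := by
    intro t a
    change Θ.symm _ = t ^ 109 • Θ.symm _
    rw [hhom t a, map_smul]
  have hfr : ∀ x : L6 K, x.1.rank ≤ 2 ↔ x ∈ Set.range f := by
    intro x
    rw [hD.1 x, ← scalar_iff Θ κ hΘ x, hR (Θ x)]
    constructor
    · rintro ⟨a, b, c, d, h⟩
      refine ⟨![Θ.symm a, Θ.symm b, Θ.symm c, Θ.symm d], ?_⟩
      change Θ.symm (F4L (Θ (Θ.symm a)) (Θ (Θ.symm b)) (Θ (Θ.symm c)) (Θ (Θ.symm d))) = x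
      rw [LieEquiv.apply_symm_apply, LieEquiv.apply_symm_apply, LieEquiv.apply_symm_apply,
        LieEquiv.apply_symm_apply, h, LieEquiv.symm_apply_apply]
    · rintro ⟨a, rfl⟩
      exact ⟨Θ (a 0), Θ (a 1), Θ (a 2), Θ (a 3), by rw [hf, LieEquiv.apply_symm_apply]⟩
  intro k hk
  interval_cases k
  · refine ⟨0, 0, 0, Submodule.zero_mem _, ?_⟩
    ext x
    constructor
    · rintro ⟨a, rfl⟩
      simp only [map_zero]
      change (0 : M6 K).rank ≤ 2 * 0
      rw [Matrix.rank_zero]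
    · intro hx
      have hx' : x.1.rank ≤ 0 := hx
      have h1 : x.1 = 0 := eq_zero_of_rank (Nat.le_zero.1 hx')
      refine ⟨0, ?_⟩
      simp only [map_zero]
      exact Subtype.ext h1.symm
  · obtain ⟨m, d, p, hp, h1⟩ := (homogeneous_images (K := K) (L := L6 K) (Zset K 1)).2
      ⟨4, 109, f, by norm_num, hpoly, heq, hfh, by
        ext x
        exact hfr x⟩
    exact ⟨m, d, p, hp, h1.symm⟩
  · suffices hsuff : ∃ (m d : ℕ) (p : FreeLieAlgebra K (Fin m)),
        IsHomogeneousLie d p ∧ Zset K 2 = lieImage (L6 K) p by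
      obtain ⟨m, d, p, hp, h1⟩ := hsuff
      exact ⟨m, d, p, hp, h1.symm⟩
    refine (homogeneous_images (K := K) (L := L6 K) (Zset K 2)).2
      ⟨8, 109, fun a => f (fun i => a (Fin.castAdd 4 i)) + f (fun i => a (Fin.natAdd 4 i)),
        by norm_num, ?_, ?_, ?_, ?_⟩
    · intro ψ
      have h2 := polyFun_reindex (Fin.castAdd 4 : Fin 4 → Fin 8) _ (hpoly ψ)
      have h3 := polyFun_reindex (Fin.natAdd 4 : Fin 4 → Fin 8) _ (hpoly ψ)
      have h4 := (PolyFun K (L6 K) (Fin 8)).add_mem h2 h3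
      convert h4 using 1
      funext a
      exact map_add ψ _ _
    · intro φ a
      change f (fun i => φ (a (Fin.castAdd 4 i))) + f (fun i => φ (a (Fin.natAdd 4 i))) = φ _
      rw [heq φ (fun i => a (Fin.castAdd 4 i)), heq φ (fun i => a (Fin.natAdd 4 i)), map_add]
    · intro t a
      have h2 := hfh t (fun i => a (Fin.castAdd 4 i))
      have h3 := hfh t (fun i => a (Fin.natAdd 4 i))
      change f (t • fun i => a (Fin.castAdd 4 i)) + f (t • fun i => a (Fin.natAdd 4 i)) = _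
      rw [h2, h3, smul_add]
    · ext x
      change x.1.rank ≤ 4 ↔ _
      rw [hD.2.2.2 x]
      constructor
      · rintro ⟨u, v, u', v', rfl⟩
        obtain ⟨a, ha⟩ := (hfr _).1 ((hD.2.2.1 _).2 ⟨u, v, rfl⟩)
        obtain ⟨b, hb⟩ := (hfr _).1 ((hD.2.2.1 _).2 ⟨u', v', rfl⟩)
        refine ⟨Fin.append a b, ?_⟩
        have h2 : (fun i => Fin.append a b (Fin.castAdd 4 i)) = a := by
          funext i; exact Fin.append_left a b i
        have h3 : (fun i => Fin.append a b (Fin.natAdd 4 i)) = b := by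
          funext i; exact Fin.append_right a b i
        change f (fun i => Fin.append a b (Fin.castAdd 4 i)) +
          f (fun i => Fin.append a b (Fin.natAdd 4 i)) = _
        rw [h2, h3, ha, hb]
      · rintro ⟨a, rfl⟩
        obtain ⟨u, v, h2⟩ := (hD.2.2.1 _).1 ((hfr _).2 ⟨fun i => a (Fin.castAdd 4 i), rfl⟩)
        obtain ⟨u', v', h3⟩ := (hD.2.2.1 _).1 ((hfr _).2 ⟨fun i => a (Fin.natAdd 4 i), rfl⟩)
        exact ⟨u, v, u', v', by rw [← h2, ← h3]⟩
  · refine ⟨1, 1, FreeLieAlgebra.of K 0, ?_, ?_⟩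
    · exact Submodule.subset_span ⟨{0}, by simp, IsLieWord.letter 0⟩
    · ext x
      constructor
      · intro _
        change x.1.rank ≤ 6
        exact (Matrix.rank_le_card_width _).trans (by simp)
      · intro _
        exact ⟨fun _ => x, by simp only [FreeLieAlgebra.lift_of_apply]⟩

end Pool.Agent.Lib.MP_d55432_al.SIX
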