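import Pool.Agent.Lib.MP_d55432_al.SIX.Iface

/-!
# SIX, module NIL: nilpotent matrices of rank 2
-/

namespace Pool.Agent.Lib.MP_d55432_al.SIX

open Matrix LieAlgebra MvPolynomial

attribute [local instance 100] LieRing.ofAssociativeRing

namespace NilAux

section mats

variable {K : Type*} [Field K]

theorem eq_of_mulVec {n : Type*} [Fintype n] [DecidableEq n] {A B : Matrix n n K}
    (h : ∀ w, A *ᵥ w = B *ᵥ w) : A = B := by
  ext i j
  have h4 := congrFun (h (Pi.single j 1)) i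
  simpa using h4

theorem eq_zero_of_rank {n : Type*} [Fintype n] [DecidableEq n]
    {A : Matrix n n K} (h : A.rank = 0) : A = 0 := by
  have h2 : LinearMap.range A.mulVecLin = ⊥ := Submodule.finrank_eq_zero.1 h
  have h3 : A.mulVecLin = 0 := LinearMap.range_eq_bot.1 h2
  refine eq_of_mulVec fun w => ?_
  rw [Matrix.zero_mulVec]
  exact LinearMap.congr_fun h3 w

theorem wedgeM_mulVec (u v w : Fin 6 → K) :
    wedgeM u v *ᵥ w = (v ⬝ᵥ w) • u - (u ⬝ᵥ w) • v := by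
  rw [wedgeM, sub_mulVec, vecMulVec_mulVec, vecMulVec_mulVec, op_smul_eq_smul,
    op_smul_eq_smul]

theorem s1_wedge (u v : Fin 6 → K) :
    s1 (wedgeM u v) = (u ⬝ᵥ u) * (v ⬝ᵥ v) - (u ⬝ᵥ v) ^ 2 := by
  simp only [s1, wedgeM, dotProduct, Fin.sum_univ_six, Matrix.sub_apply, vecMulVec_apply]
  ring

theorem skew_dot {y : M6 K} (hy : yᵀ = -y) (u w : Fin 6 → K) :
    u ⬝ᵥ (y *ᵥ w) = -(w ⬝ᵥ (y *ᵥ u)) := by
  rw [dotProduct_mulVec, ← mulVec_transpose, hy, neg_mulVec, neg_dotProduct,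
    dotProduct_comm w]

theorem skew_self [CharZero K] {y : M6 K} (hy : yᵀ = -y) (u : Fin 6 → K) :
    u ⬝ᵥ (y *ᵥ u) = 0 := by
  have h := skew_dot hy u u
  have h2 : (2 : K) * (u ⬝ᵥ (y *ᵥ u)) = 0 := by linear_combination h
  exact (mul_eq_zero.1 h2).resolve_left two_ne_zero

theorem sq_mulVec (u v w : Fin 6 → K) :
    (wedgeM u v * wedgeM u v) *ᵥ w =
      ((v ⬝ᵥ w) * (u ⬝ᵥ v) - (u ⬝ᵥ w) * (v ⬝ᵥ v)) • u +
        ((u ⬝ᵥ w) * (u ⬝ᵥ v) - (v ⬝ᵥ w) * (u ⬝ᵥ u)) • v := by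
  rw [← mulVec_mulVec, wedgeM_mulVec u v w, mulVec_sub, mulVec_smul, mulVec_smul,
    wedgeM_mulVec, wedgeM_mulVec, dotProduct_comm v u]
  module

/-- the square of a nilpotent matrix of rank 2 in normal form -/
theorem sq_nf {u v : Fin 6 → K} (huu : u ⬝ᵥ u = 0) (huv : u ⬝ᵥ v = 0) (w : Fin 6 → K) :
    (wedgeM u v * wedgeM u v) *ᵥ w = (-((u ⬝ᵥ w) * (v ⬝ᵥ v))) • u := by
  rw [sq_mulVec, huu, huv]
  module

theorem sq_nf' {u v : Fin 6 → K} (huu : u ⬝ᵥ u = 0) (huv : u ⬝ᵥ v = 0) :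
    wedgeM u v * wedgeM u v = vecMulVec ((-(v ⬝ᵥ v)) • u) u := by
  refine eq_of_mulVec fun w => ?_
  rw [sq_nf huu huv, vecMulVec_mulVec, op_smul_eq_smul, smul_smul]
  congr 1
  ring

theorem nf {u v : Fin 6 → K} (h : s1 (wedgeM u v) = 0) :
    ∃ u' v' : Fin 6 → K, wedgeM u v = wedgeM u' v' ∧ u' ⬝ᵥ u' = 0 ∧ u' ⬝ᵥ v' = 0 := by
  rw [s1_wedge] at h
  by_cases hA : u ⬝ᵥ u = 0
  · refine ⟨u, v, rfl, hA, ?_⟩
    rw [hA, zero_mul, zero_sub, neg_eq_zero] at h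
    exact pow_eq_zero_iff (two_ne_zero) |>.1 h
  · set A := u ⬝ᵥ u with hAdef
    set B := u ⬝ᵥ v with hBdef
    have h1 : (A • v - B • u) ⬝ᵥ u = 0 := by
      rw [sub_dotProduct, smul_dotProduct, smul_dotProduct, dotProduct_comm v u, ← hAdef,
        ← hBdef, smul_eq_mul, smul_eq_mul]
      ring
    have h2 : (A • v - B • u) ⬝ᵥ v = 0 := by
      rw [sub_dotProduct, smul_dotProduct, smul_dotProduct, ← hBdef, smul_eq_mul, smul_eq_mul]
      linear_combination h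
    refine ⟨A • v - B • u, (-A⁻¹) • u, ?_, ?_, ?_⟩
    · ext i j
      simp only [wedgeM, Matrix.sub_apply, vecMulVec_apply, Pi.sub_apply, Pi.smul_apply, smul_eq_mul]
      field_simp
      ring
    · rw [dotProduct_sub, dotProduct_smul, dotProduct_smul, h1, h2, smul_zero, smul_zero,
        sub_zero]
    · rw [dotProduct_smul, h1, smul_zero]

theorem rank_sq_le_one {u v : Fin 6 → K} (h : s1 (wedgeM u v) = 0) :
    (wedgeM u v * wedgeM u v).rank ≤ 1 := by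
  obtain ⟨u', v', h1, h2, h3⟩ := nf h
  rw [h1, sq_nf' h2 h3]
  exact rank_vecMulVec_le _ _

theorem two_le_rank_sq {u v : Fin 6 → K} (h : s1 (wedgeM u v) ≠ 0) :
    2 ≤ (wedgeM u v * wedgeM u v).rank := by
  have hs := s1_wedge u v
  set s := s1 (wedgeM u v) with hsdef
  have hli : LinearIndependent K ![u, v] := by
    rw [LinearIndependent.pair_iff]
    intro a b hab
    have h1 := congrArg (fun z => u ⬝ᵥ z) hab
    have h2 := congrArg (fun z => v ⬝ᵥ z) hab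
    simp only [dotProduct_add, dotProduct_smul, smul_eq_mul, dotProduct_zero] at h1 h2
    rw [dotProduct_comm v u] at h2
    have h3 : a * s = 0 := by
      rw [hs]
      linear_combination (v ⬝ᵥ v) * h1 - (u ⬝ᵥ v) * h2
    have h4 : b * s = 0 := by
      rw [hs]
      linear_combination (u ⬝ᵥ u) * h2 - (u ⬝ᵥ v) * h1
    exact ⟨(mul_eq_zero.1 h3).resolve_right h, (mul_eq_zero.1 h4).resolve_right h⟩
  have hfr : Module.finrank K (Submodule.span K (Set.range ![u, v])) = 2 := by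
    rw [finrank_span_eq_card hli, Fintype.card_fin]
  have hu : (wedgeM u v * wedgeM u v) *ᵥ u = (-s) • u := by
    rw [sq_mulVec, dotProduct_comm v u, hs]
    module
  have hv : (wedgeM u v * wedgeM u v) *ᵥ v = (-s) • v := by
    rw [sq_mulVec, hs]
    module
  have hle : Submodule.span K (Set.range ![u, v]) ≤
      LinearMap.range (wedgeM u v * wedgeM u v).mulVecLin := by
    rw [Submodule.span_le]
    rintro _ ⟨i, rfl⟩
    have hs0 : -s ≠ 0 := neg_ne_zero.2 h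
    fin_cases i
    · refine ⟨(-s)⁻¹ • u, ?_⟩
      change (wedgeM u v * wedgeM u v) *ᵥ ((-s)⁻¹ • u) = u
      rw [mulVec_smul, hu, smul_smul, inv_mul_cancel₀ hs0, one_smul]
    · refine ⟨(-s)⁻¹ • v, ?_⟩
      change (wedgeM u v * wedgeM u v) *ᵥ ((-s)⁻¹ • v) = v
      rw [mulVec_smul, hv, smul_smul, inv_mul_cancel₀ hs0, one_smul]
  rw [← hfr]
  exact Submodule.finrank_mono hle

theorem exists_perp (u v : Fin 6 → K) :
    ∃ z : Fin 6 → K, z ⬝ᵥ u = 0 ∧ z ∉ Submodule.span K (Set.range ![u, v]) := by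
  by_contra hcon
  push Not at hcon
  let f : (Fin 6 → K) →ₗ[K] K :=
    { toFun := fun z => z ⬝ᵥ u
      map_add' := fun a b => add_dotProduct a b u
      map_smul' := fun c a => smul_dotProduct c a u }
  have h1 := f.finrank_range_add_finrank_ker
  have h2 : Module.finrank K (LinearMap.range f) ≤ 1 := by
    refine (Submodule.finrank_le _).trans ?_
    rw [Module.finrank_self]
  have h3 : LinearMap.ker f ≤ Submodule.span K (Set.range ![u, v]) := fun z hz => hcon z hz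
  have h4 := Submodule.finrank_mono h3
  have h5 := finrank_range_le_card (R := K) ![u, v]
  rw [Fintype.card_fin] at h5
  rw [Module.finrank_fintype_fun_eq_card, Fintype.card_fin] at h1
  have h6 : Module.finrank K (Submodule.span K (Set.range ![u, v])) ≤ 2 := h5
  omega

end mats

section lie

variable {K : Type*} [Field K]

/-- the square of `ad x` has values in the line of `x` -/
def PP (K : Type*) [Field K] {L : Type*} [LieRing L] [LieAlgebra K L] (x : L) : Prop :=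
  ∀ y : L, ∃ c : K, ⁅x, ⁅x, y⁆⁆ = c • x

theorem PP_equiv {L L' : Type*} [LieRing L] [LieAlgebra K L] [LieRing L'] [LieAlgebra K L']
    (e : L ≃ₗ⁅K⁆ L') (x : L) : PP K (e x) ↔ PP K x := by
  constructor
  · intro h y
    obtain ⟨c, hc⟩ := h (e y)
    have h1 : e ⁅x, ⁅x, y⁆⁆ = e (c • x) := by
      rw [LieEquiv.map_lie, LieEquiv.map_lie, hc, map_smul]
    exact ⟨c, e.injective h1⟩
  · intro h y
    obtain ⟨c, hc⟩ := h (e.symm y)
    refine ⟨c, ?_⟩
    have h1 := congrArg e hc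
    rw [LieEquiv.map_lie, LieEquiv.map_lie, LieEquiv.apply_symm_apply, map_smul] at h1
    exact h1

variable [CharZero K]

theorem trace_E : (Matrix.single 0 1 1 : M4 K).trace = 0 := by
  simp [Matrix.single, Matrix.trace]

theorem trace_C : (CC (0 : K)).trace = 0 := by
  simp [CC, Matrix.trace, Fin.sum_univ_four]

theorem PP_E : PP K (mk4 (Matrix.single 0 1 1 : M4 K) trace_E) := by
  intro y
  refine ⟨-2 * y.1 1 0, ?_⟩
  apply Subtype.ext
  change Matrix.single 0 1 1 * (Matrix.single 0 1 1 * y.1 - y.1 * Matrix.single 0 1 1) -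
    (Matrix.single 0 1 1 * y.1 - y.1 * Matrix.single 0 1 1) * Matrix.single 0 1 1 =
    (-2 * y.1 1 0) • (Matrix.single 0 1 1 : M4 K)
  ext i j
  fin_cases i <;> fin_cases j <;>
    simp [Matrix.single, Matrix.mul_apply, Fin.sum_univ_four] <;> ring

/-- a test matrix -/
def EE (K : Type*) [Field K] : M4 K := !![0, 1, 0, 0; 0, 0, 0, 0; 0, 0, 0, 0; 0, 0, 0, 0]

theorem trace_EE : (EE K).trace = 0 := by
  simp [EE, Matrix.trace, Fin.sum_univ_four]

theorem not_PP_C : ¬ PP K (mk4 (CC (0 : K)) trace_C) := by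
  intro h
  obtain ⟨c, hc⟩ := h (mk4 (EE K) trace_EE)
  have h1 : CC (0 : K) * (CC 0 * EE K - EE K * CC 0) -
      (CC 0 * EE K - EE K * CC 0) * CC 0 = c • CC 0 :=
    congrArg Subtype.val hc
  have h2 := congrFun (congrFun h1 1) 0
  have h3 := congrFun (congrFun h1 3) 2
  simp [CC, EE, Matrix.mul_apply, Fin.sum_univ_four] at h2 h3
  rw [← h3] at h2
  norm_num at h2

theorem conj_of_eq {g h : M4 K} (hgh : g * h = 1) (hhg : h * g = 1) {X : L4 K} {A : M4 K}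
    (hA : A.trace = 0) (hX : X.1 = g * A * h) : X = conj4 g h hgh hhg (mk4 A hA) := by
  apply Subtype.ext
  rw [conj4_coe, hX]
  rfl

theorem skew (x : L6 K) : x.1ᵀ = -x.1 := (LieAlgebra.Orthogonal.mem_so _ _ _).1 x.2

/-- the double bracket with a matrix `wedge u v` -/
theorem bracket_mulVec {u v : Fin 6 → K} (y : L6 K) (w : Fin 6 → K) :
    (⁅wedge u v, ⁅wedge u v, y⁆⁆ : L6 K).1 *ᵥ w =
      (wedgeM u v * wedgeM u v) *ᵥ (y.1 *ᵥ w) + y.1 *ᵥ ((wedgeM u v * wedgeM u v) *ᵥ w) -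
        (2 * (v ⬝ᵥ (y.1 *ᵥ u))) • (wedgeM u v *ᵥ w) := by
  have h1 : (⁅wedge u v, ⁅wedge u v, y⁆⁆ : L6 K).1 =
      wedgeM u v * (wedgeM u v * y.1 - y.1 * wedgeM u v) -
        (wedgeM u v * y.1 - y.1 * wedgeM u v) * wedgeM u v := rfl
  have h2 : wedgeM u v * (wedgeM u v * y.1 - y.1 * wedgeM u v) -
        (wedgeM u v * y.1 - y.1 * wedgeM u v) * wedgeM u v =
      wedgeM u v * wedgeM u v * y.1 + y.1 * (wedgeM u v * wedgeM u v) -
        (wedgeM u v * y.1 * wedgeM u v + wedgeM u v * y.1 * wedgeM u v) := by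
    noncomm_ring
  have h3 : (wedgeM u v * y.1 * wedgeM u v) *ᵥ w =
      (v ⬝ᵥ (y.1 *ᵥ u)) • (wedgeM u v *ᵥ w) := by
    rw [← mulVec_mulVec, ← mulVec_mulVec, wedgeM_mulVec u v w, mulVec_sub, mulVec_smul,
      mulVec_smul, mulVec_sub, mulVec_smul, mulVec_smul, wedgeM_mulVec, wedgeM_mulVec,
      skew_self (skew y) u, skew_self (skew y) v, skew_dot (skew y) u v]
    module
  rw [h1, h2, sub_mulVec, add_mulVec, add_mulVec, h3,
    ← mulVec_mulVec w (wedgeM u v * wedgeM u v) y.1,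
    ← mulVec_mulVec w y.1 (wedgeM u v * wedgeM u v)]
  module

/-- for nilpotent matrices of rank 2 the property `PP` means that the square is zero -/
theorem PP_iff {x : L6 K} (hx : ∃ u v, x = wedge u v) (hx0 : x ≠ 0) (hs : s1 x.1 = 0) :
    PP K x ↔ (x.1 * x.1).rank = 0 := by
  obtain ⟨u₀, v₀, hx⟩ := hx
  obtain ⟨u, v, h1, huu, huv⟩ := nf (u := u₀) (v := v₀) (by
    have : x.1 = wedgeM u₀ v₀ := by rw [hx]; rfl
    rw [← this]; exact hs)
  have hxw : x = wedge u v := by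
    rw [hx]
    exact Subtype.ext h1
  subst hxw
  have hval : (wedge u v : L6 K).1 = wedgeM u v := rfl
  rw [hval]
  constructor
  · intro hP
    have hvv : v ⬝ᵥ v = 0 := by
      by_contra hvv
      have hu0 : u ≠ 0 := by
        rintro rfl
        apply hx0
        apply Subtype.ext
        rw [hval]
        ext i j
        simp [wedgeM, vecMulVec_apply]
      obtain ⟨i, hi⟩ := Function.ne_iff.1 hu0
      rw [Pi.zero_apply] at hi
      set t : Fin 6 → K := Pi.single i (u i)⁻¹ with ht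
      have htu : t ⬝ᵥ u = 1 := by
        rw [ht, single_dotProduct, inv_mul_cancel₀ hi]
      obtain ⟨z, hzu, hz⟩ := exists_perp u v
      obtain ⟨c, hc⟩ := hP (wedge z t)
      have hyu : (wedge z t : L6 K).1 *ᵥ u = z := by
        change wedgeM z t *ᵥ u = z
        rw [wedgeM_mulVec, htu, hzu, one_smul, zero_smul, sub_zero]
      have h2 := bracket_mulVec (u := u) (v := v) (wedge z t) t
      rw [hc, sq_nf huu huv, sq_nf huu huv, skew_dot (skew (wedge z t)) u t, hyu,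
        mulVec_smul, hyu, dotProduct_comm u t, htu] at h2
      have h3 : ((c • wedge u v : L6 K)).1 *ᵥ t = c • (wedgeM u v *ᵥ t) := by
        change (c • wedgeM u v) *ᵥ t = _
        rw [smul_mulVec]
      rw [h3, wedgeM_mulVec, dotProduct_comm u t, htu, one_smul] at h2
      apply hz
      rw [Submodule.mem_span_range_iff_exists_fun]
      refine ⟨![(t ⬝ᵥ z) - (v ⬝ᵥ v)⁻¹ * ((c + 2 * (v ⬝ᵥ z)) * (v ⬝ᵥ t)),
        (v ⬝ᵥ v)⁻¹ * (c + 2 * (v ⬝ᵥ z))], ?_⟩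
      rw [Fin.sum_univ_two]
      simp only [Matrix.cons_val_zero, Matrix.cons_val_one]
      funext j
      have h4 := congrFun h2 j
      simp only [Pi.add_apply, Pi.sub_apply, Pi.smul_apply, smul_eq_mul] at h4 ⊢
      field_simp
      linear_combination (-1 : K) * h4
    rw [sq_nf' huu huv, hvv, neg_zero, zero_smul]
    have : vecMulVec (0 : Fin 6 → K) u = 0 := by ext i j; simp [vecMulVec_apply]
    rw [this, Matrix.rank_zero]
  · intro hr y
    have hsq := eq_zero_of_rank hr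
    refine ⟨-(2 * (v ⬝ᵥ (y.1 *ᵥ u))), ?_⟩
    apply Subtype.ext
    refine eq_of_mulVec fun w => ?_
    rw [bracket_mulVec, hsq, Matrix.zero_mulVec, Matrix.zero_mulVec, mulVec_zero, add_zero,
      zero_sub, ← neg_smul, ← smul_mulVec]
    rfl

end lie

section main

variable {K : Type*} [Field K] [CharZero K]

theorem part1 (hD : DARB_S K) (x : L6 K) (hx : x.1.rank ≤ 2) :
    (s1 x.1 ≠ 0 ∧ (x.1 * x.1).rank = 2) ∨
      (s1 x.1 = 0 ∧ ((x.1 * x.1).rank = 1 ∨ (x.1 * x.1).rank = 0)) := by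
  obtain ⟨u, v, rfl⟩ := (hD.2.2.1 x).1 hx
  have hval : (wedge u v : L6 K).1 = wedgeM u v := rfl
  rw [hval] at hx ⊢
  by_cases hs : s1 (wedgeM u v) = 0
  · right
    have := rank_sq_le_one hs
    exact ⟨hs, by omega⟩
  · left
    have h1 := two_le_rank_sq hs
    have h2 := Matrix.rank_mul_le_left (wedgeM u v) (wedgeM u v)
    exact ⟨hs, by omega⟩

theorem type (Θ : L6 K ≃ₗ⁅K⁆ L4 K) (κ : K) (hΘ : IsTheta Θ κ) (hO : ORB_S K) (hD : DARB_S K)
    (x : L6 K) (hx : x.1.rank ≤ 2) (hx0 : x ≠ 0) (hs : s1 x.1 = 0) :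
    ∃ (g h : M4 K) (hgh : g * h = 1) (hhg : h * g = 1),
      (PP K x ∧ Θ x = conj4 g h hgh hhg (mk4 (Matrix.single 0 1 1) trace_E)) ∨
        (¬ PP K x ∧ Θ x = conj4 g h hgh hhg (mk4 (CC 0) trace_C)) := by
  have hsq : (Θ x).1 * (Θ x).1 = (0 : K) • (1 : M4 K) := by
    rw [hΘ.2 x, (hD.1 x).1 hx, map_zero, hs]
    change (-0 / 4 : K) • (1 : M4 K) + κ • (0 : M4 K) = _
    rw [neg_zero, zero_div, smul_zero, add_zero]
  have htr : (Θ x).1.trace = 0 := (mem_sl _).1 (Θ x).2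
  rcases hO (Θ x).1 0 htr hsq with h0 | ⟨g, h, hgh, hhg, h1 | ⟨-, h1⟩⟩
  · exfalso
    apply hx0
    have h2 : Θ x = Θ 0 := by
      rw [map_zero]
      exact Subtype.ext h0
    exact Θ.injective h2
  · refine ⟨g, h, hgh, hhg, Or.inr ?_⟩
    have h2 := conj_of_eq hgh hhg trace_C h1
    refine ⟨?_, h2⟩
    rw [← PP_equiv Θ, h2, PP_equiv]
    exact not_PP_C
  · refine ⟨g, h, hgh, hhg, Or.inl ?_⟩
    have h2 := conj_of_eq hgh hhg trace_E h1
    refine ⟨?_, h2⟩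
    rw [← PP_equiv Θ, h2, PP_equiv]
    exact PP_E

theorem conj_exists (Θ : L6 K ≃ₗ⁅K⁆ L4 K) {e e' : L4 K ≃ₗ⁅K⁆ L4 K} {A : L4 K} {x y : L6 K}
    (hx : Θ x = e A) (hy : Θ y = e' A) : ∃ φ : L6 K ≃ₗ⁅K⁆ L6 K, φ x = y := by
  refine ⟨((Θ.trans e.symm).trans e').trans Θ.symm, ?_⟩
  change Θ.symm (e' (e.symm (Θ x))) = y
  rw [hx, LieEquiv.symm_apply_apply, ← hy, LieEquiv.symm_apply_apply]

theorem sq4L_Θ (Θ : L6 K ≃ₗ⁅K⁆ L4 K) (κ : K) (hΘ : IsTheta Θ κ) (x : L6 K) :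
    sq4L (Θ x) = κ • Θ (sharp x) ∧ ((Θ x).1 * (Θ x).1).trace = -s1 x.1 := by
  have h1 := hΘ.2 x
  have h2 : (Θ (sharp x)).1.trace = 0 := (mem_sl _).1 (Θ (sharp x)).2
  have h3 : ((Θ x).1 * (Θ x).1).trace = -s1 x.1 := by
    rw [h1, trace_add, trace_smul, trace_smul, h2, smul_zero, trace_one, Fintype.card_fin,
      smul_eq_mul, add_zero]
    push_cast
    ring
  refine ⟨?_, h3⟩
  apply Subtype.ext
  change sq4 (Θ x).1 = κ • (Θ (sharp x)).1
  rw [sq4, h3, h1]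
  abel

theorem part3 (Θ : L6 K ≃ₗ⁅K⁆ L4 K) (κ : K) (hΘ : IsTheta Θ κ) (hA : AD_S K) (hD : DARB_S K)
    (φ : L6 K ≃ₗ⁅K⁆ L6 K) (x : L6 K) (hx : x.1.rank ≤ 2) : (φ x).1.rank ≤ 2 ∧
    ((φ x).1 * (φ x).1).rank = (x.1 * x.1).rank := by
  let ψ : L4 K ≃ₗ⁅K⁆ L4 K := (Θ.symm.trans φ).trans Θ
  have hψ : Θ (φ x) = ψ (Θ x) := by
    change _ = Θ (φ (Θ.symm (Θ x)))
    rw [LieEquiv.symm_apply_apply]
  obtain ⟨htr, ε, -, hε⟩ := hA ψ
  have h1 : κ • Θ (sharp (φ x)) = 0 := by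
    rw [← (sq4L_Θ Θ κ hΘ (φ x)).1, hψ, hε, (sq4L_Θ Θ κ hΘ x).1, (hD.1 x).1 hx, map_zero,
      smul_zero, map_zero, smul_zero]
  have h2 : sharp (φ x) = 0 := by
    have h3 : Θ (sharp (φ x)) = Θ 0 := by
      rw [map_zero]
      exact (smul_eq_zero.1 h1).resolve_left hΘ.1
    exact Θ.injective h3
  have hr : (φ x).1.rank ≤ 2 := (hD.1 _).2 h2
  have hs : s1 (φ x).1 = s1 x.1 := by
    have h3 := (sq4L_Θ Θ κ hΘ (φ x)).2
    rw [hψ, htr, (sq4L_Θ Θ κ hΘ x).2] at h3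
    exact (neg_injective h3).symm
  refine ⟨hr, ?_⟩
  by_cases hx0 : x = 0
  · rw [hx0, map_zero]
  have hφ0 : φ x ≠ 0 := by
    intro h
    apply hx0
    have h3 : φ x = φ 0 := by rw [h, map_zero]
    exact φ.injective h3
  rcases part1 hD x hx with ⟨h3, h4⟩ | ⟨h3, h4⟩
  · rcases part1 hD (φ x) hr with ⟨h5, h6⟩ | ⟨h5, h6⟩
    · rw [h4, h6]
    · rw [hs] at h5
      exact absurd h5 h3
  · rcases part1 hD (φ x) hr with ⟨h5, h6⟩ | ⟨h5, h6⟩
    · rw [hs] at h5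
      exact absurd h3 h5
    · have h7 := PP_iff ((hD.2.2.1 x).1 hx) hx0 h3
      have h8 := PP_iff ((hD.2.2.1 _).1 hr) hφ0 h5
      rw [PP_equiv φ, h7] at h8
      rcases h4 with h4 | h4
      · rcases h6 with h6 | h6
        · rw [h4, h6]
        · have := h8.2 h6
          omega
      · rw [h4, h8.1 h4]

end main

end NilAux

open NilAux in
/-- NIL -/
theorem nil (K : Type*) [Field K] [IsAlgClosed K] [CharZero K] (hD : DARB_S K)
    (hT : THETA_S K) (hO : ORB_S K) (hA : AD_S K) : NIL_S K := by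
  obtain ⟨Θ, κ, hΘ⟩ := hT
  refine ⟨fun x hx _ => part1 hD x hx, ?_, fun φ x hx => part3 Θ κ hΘ hA hD φ x hx⟩
  intro x y hx hy hx0 hy0 hsx hsy hr
  have h7 := PP_iff ((hD.2.2.1 x).1 hx) hx0 hsx
  have h8 := PP_iff ((hD.2.2.1 y).1 hy) hy0 hsy
  rw [hr] at h7
  obtain ⟨g, h, hgh, hhg, ⟨h1, h2⟩ | ⟨h1, h2⟩⟩ := NilAux.type Θ κ hΘ hO hD x hx hx0 hsx
  · obtain ⟨g', h', hgh', hhg', ⟨h1', h2'⟩ | ⟨h1', h2'⟩⟩ :=
      NilAux.type Θ κ hΘ hO hD y hy hy0 hsy
    · exact conj_exists Θ h2 h2'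
    · exact absurd (h8.2 (h7.1 h1)) h1'
  · obtain ⟨g', h', hgh', hhg', ⟨h1', h2'⟩ | ⟨h1', h2'⟩⟩ :=
      NilAux.type Θ κ hΘ hO hD y hy hy0 hsy
    · exact absurd (h7.2 (h8.1 h1')) h1
    · exact conj_exists Θ h2 h2'

end Pool.Agent.Lib.MP_d55432_al.SIX
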