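import Pool.Agent.Lib.MP_d55432_al.SIX.Iface

/-!
# SIX, module RANGE: the range of the map `F4L`
-/

namespace Pool.Agent.Lib.MP_d55432_al.SIX

open Matrix LieAlgebra MvPolynomial

attribute [local instance 100] LieRing.ofAssociativeRing

namespace RangeAux

variable {K : Type*} [Field K] {g h : M4 K}

theorem conj_mul (hhg : h * g = 1) (X Y : M4 K) :
    (g * X * h) * (g * Y * h) = g * (X * Y) * h := by
  calc (g * X * h) * (g * Y * h) = g * X * (h * g) * Y * h := by
        simp only [Matrix.mul_assoc]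
    _ = _ := by rw [hhg, Matrix.mul_one]; simp only [Matrix.mul_assoc]

theorem conj_one (hgh : g * h = 1) : g * (1 : M4 K) * h = 1 := by
  rw [Matrix.mul_one, hgh]

theorem conj_trace (hhg : h * g = 1) (X : M4 K) : (g * X * h).trace = X.trace := by
  rw [trace_mul_comm, ← Matrix.mul_assoc, hhg, Matrix.one_mul]

theorem conj_smul (c : K) (X : M4 K) : g * (c • X) * h = c • (g * X * h) := by
  rw [Matrix.mul_smul, Matrix.smul_mul]

theorem conj_add (X Y : M4 K) : g * (X + Y) * h = g * X * h + g * Y * h := by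
  rw [Matrix.mul_add, Matrix.add_mul]

theorem conj_sub (X Y : M4 K) : g * (X - Y) * h = g * X * h - g * Y * h := by
  rw [Matrix.mul_sub, Matrix.sub_mul]

theorem conj_neg (X : M4 K) : g * (-X) * h = -(g * X * h) := by
  rw [Matrix.mul_neg, Matrix.neg_mul]

theorem sq4_conj (hgh : g * h = 1) (hhg : h * g = 1) (X : M4 K) :
    sq4 (g * X * h) = g * sq4 X * h := by
  rw [sq4, sq4, conj_mul hhg, conj_trace hhg, conj_sub, conj_smul, conj_one hgh]

theorem adj4_conj (hgh : g * h = 1) (hhg : h * g = 1) (X : M4 K) :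
    adj4 (g * X * h) = g * adj4 X * h := by
  simp only [adj4, conj_mul hhg, conj_trace hhg, conj_add, conj_sub, conj_neg, conj_smul,
    conj_one hgh]

theorem lin4_conj (hgh : g * h = 1) (hhg : h * g = 1) (a Y : M4 K) :
    lin4 (g * a * h) (g * Y * h) = g * lin4 a Y * h := by
  simp only [lin4, conj_mul hhg, conj_trace hhg, conj_sub, conj_smul, conj_one hgh]

theorem w4_conj (hgh : g * h = 1) (hhg : h * g = 1) (a x : M4 K) :
    w4 (g * a * h) (g * x * h) = g * w4 a x * h := by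
  have h1 : (g * a * h) * (g * x * h) - (g * x * h) * (g * a * h) =
      g * (a * x - x * a) * h := by
    rw [conj_mul hhg, conj_mul hhg, conj_sub]
  simp only [w4]
  rw [h1, adj4_conj hgh hhg, lin4_conj hgh hhg, conj_mul hhg, conj_mul hhg, sq4_conj hgh hhg,
    sq4_conj hgh hhg, ← conj_add, sq4_conj hgh hhg]

/-- the diagonal matrix with square `1024` -/
def JJ (K : Type*) [Field K] : M4 K :=
  !![32, 0, 0, 0; 0, 32, 0, 0; 0, 0, -32, 0; 0, 0, 0, -32]

theorem JJ_sq : JJ K * JJ K = (1024 : K) • (1 : M4 K) := by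
  ext i j
  fin_cases i <;> fin_cases j <;>
    simp [JJ, Matrix.mul_apply, Fin.sum_univ_four] <;> norm_num

theorem JJ_trace : (JJ K).trace = 0 := by
  simp [JJ, Matrix.trace, Fin.sum_univ_four]

/-- off-diagonal blocks -/
def yy (P Q : Matrix (Fin 2) (Fin 2) K) : M4 K :=
  !![0, 0, P 0 0, P 0 1; 0, 0, P 1 0, P 1 1; Q 0 0, Q 0 1, 0, 0; Q 1 0, Q 1 1, 0, 0]

theorem yy_trace (P Q : Matrix (Fin 2) (Fin 2) K) : (yy P Q).trace = 0 := by
  simp [yy, Matrix.trace, Fin.sum_univ_four]

theorem value_one (c : K) :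
    sq4 (JJ K * yy !![0, c; 1, 0] 1 - yy !![0, c; 1, 0] 1 * JJ K) = (-4096 : K) • CC c := by
  have h1 : JJ K * yy !![0, c; 1, 0] 1 - yy !![0, c; 1, 0] 1 * JJ K =
      !![0, 0, 0, 64 * c; 0, 0, 64, 0; -64, 0, 0, 0; 0, -64, 0, 0] := by
    ext i j
    fin_cases i <;> fin_cases j <;>
      simp [JJ, yy, Matrix.mul_apply, Fin.sum_univ_four] <;> ring
  rw [h1]
  ext i j
  fin_cases i <;> fin_cases j <;>
    simp [sq4, CC, Matrix.mul_apply, Matrix.trace, Fin.sum_univ_four] <;> ring

theorem value_two :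
    sq4 (JJ K * yy !![1, 0; 0, 0] !![0, 1; 0, 0] - yy !![1, 0; 0, 0] !![0, 1; 0, 0] * JJ K) =
      (-4096 : K) • (Matrix.single 0 1 1 : M4 K) := by
  have h1 : JJ K * yy !![1, 0; 0, 0] !![0, 1; 0, 0] - yy !![1, 0; 0, 0] !![0, 1; 0, 0] * JJ K =
      !![0, 0, 64, 0; 0, 0, 0, 0; 0, -64, 0, 0; 0, 0, 0, 0] := by
    ext i j
    fin_cases i <;> fin_cases j <;>
      simp [JJ, yy, Matrix.mul_apply, Fin.sum_univ_four] <;> ring
  rw [h1]
  ext i j
  fin_cases i <;> fin_cases j <;>
    simp [sq4, Matrix.single, Matrix.mul_apply, Matrix.trace, Fin.sum_univ_four] <;> ring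

/-- the matrix `b` -/
def bb (t : K) : M4 K := Matrix.diagonal ![t, t, -2 * t, 0]

theorem bb_trace (t : K) : (bb t).trace = 0 := by
  simp [bb, Matrix.trace, Fin.sum_univ_four]
  ring

theorem bb_cube (t : K) : (bb t * bb t * bb t).trace = -6 * t ^ 3 := by
  rw [bb, Matrix.diagonal_mul_diagonal, Matrix.diagonal_mul_diagonal]
  simp [Matrix.trace, Fin.sum_univ_four]
  ring

end RangeAux

open RangeAux in
/-- RANGE -/
theorem range (K : Type*) [Field K] [IsAlgClosed K] [CharZero K] (hC : CORE_S K)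
    (hP : PHI_S K) (hO : ORB_S K) : RANGE_S K := by
  intro X
  constructor
  · rintro ⟨c, hX⟩
    have hXt : X.1.trace = 0 := (mem_sl _).1 X.2
    -- a value of `w4`
    obtain ⟨a₀, x₀, ha₀, hx₀, hw₀⟩ := hC.2.2.2.1
    have h1024 : (1024 : K) ≠ 0 := by norm_num
    have hne : ∀ Y : M4 K, Y * Y = (1024 : K) • (1 : M4 K) → Y ≠ 0 := by
      rintro Y hY rfl
      rw [Matrix.zero_mul] at hY
      have := congrFun (congrFun hY 0) 0
      simp at this
    have hJ : ∃ a x : M4 K, a.trace = 0 ∧ x.trace = 0 ∧ w4 a x = JJ K := by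
      rcases hO (w4 a₀ x₀) 1024 (trace_sq4 _) hw₀ with h | ⟨g, h, hgh, hhg, h1 | ⟨h1, -⟩⟩
      · exact absurd h (hne _ hw₀)
      · rcases hO (JJ K) 1024 JJ_trace JJ_sq with h' | ⟨g', h', hgh', hhg', h1' | ⟨h1', -⟩⟩
        · exact absurd h' (hne _ JJ_sq)
        · -- conjugation by `g' h`
          have e1 : (g' * h) * (g * h') = 1 := by
            calc (g' * h) * (g * h') = g' * (h * g) * h' := by simp only [Matrix.mul_assoc]
              _ = 1 := by rw [hhg, Matrix.mul_one, hgh']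
          have e2 : (g * h') * (g' * h) = 1 := by
            calc (g * h') * (g' * h) = g * (h' * g') * h := by simp only [Matrix.mul_assoc]
              _ = 1 := by rw [hhg', Matrix.mul_one, hgh]
          refine ⟨(g' * h) * a₀ * (g * h'), (g' * h) * x₀ * (g * h'), ?_, ?_, ?_⟩
          · rw [conj_trace e2, ha₀]
          · rw [conj_trace e2, hx₀]
          · rw [w4_conj e1 e2, h1, h1']
            calc g' * h * (g * CC 1024 * h) * (g * h') =
                g' * (h * g) * CC 1024 * (h * g) * h' := by simp only [Matrix.mul_assoc]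
              _ = _ := by rw [hhg, Matrix.mul_one, Matrix.mul_one]
        · exact absurd h1' h1024
      · exact absurd h1 h1024
    obtain ⟨a, x, ha, hx, hax⟩ := hJ
    obtain ⟨t, ht⟩ := IsAlgClosed.exists_pow_nat_eq ((24576 : K)⁻¹) (n := 3) (by norm_num)
    have hscal : (-6 * t ^ 3) * (-4096 : K) = 1 := by
      rw [ht]
      have : (24576 : K) ≠ 0 := by norm_num
      field_simp
      norm_num
    -- the two normal forms
    have hval : ∀ (P Q : Matrix (Fin 2) (Fin 2) K) (Y : L4 K),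
        sq4 (JJ K * yy P Q - yy P Q * JJ K) = (-4096 : K) • Y.1 →
        F4L (mk4 a ha) (mk4 x hx) (mk4 (yy P Q) (yy_trace P Q)) (mk4 (bb t) (bb_trace t)) =
          Y := by
      intro P Q Y hY
      apply Subtype.ext
      change F4 a x (yy P Q) (bb t) = Y.1
      rw [F4, bb_cube, hax, hY, smul_smul, hscal, one_smul]
    rcases hO X.1 c hXt hX with h0 | ⟨g, h, hgh, hhg, h1 | ⟨-, h1⟩⟩
    · refine ⟨0, 0, 0, 0, ?_⟩
      apply Subtype.ext
      change F4 0 0 0 0 = X.1
      rw [F4, Matrix.zero_mul, Matrix.zero_mul, Matrix.trace_zero, zero_smul, h0]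
    · have hCt : (CC c).trace = 0 := by simp [CC, Matrix.trace, Fin.sum_univ_four]
      refine ⟨_, _, _, _, (hP (conj4 g h hgh hhg) _ _ _ _).trans
        ((congrArg (conj4 g h hgh hhg)
          (hval !![0, c; 1, 0] 1 (mk4 (CC c) hCt) (value_one c))).trans ?_)⟩
      apply Subtype.ext
      rw [conj4_coe, h1]
      rfl
    · have hEt : (Matrix.single 0 1 1 : M4 K).trace = 0 := by
        simp [Matrix.single, Matrix.trace, Fin.sum_univ_four]
      refine ⟨_, _, _, _, (hP (conj4 g h hgh hhg) _ _ _ _).trans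
        ((congrArg (conj4 g h hgh hhg)
          (hval !![1, 0; 0, 0] !![0, 1; 0, 0] (mk4 (Matrix.single 0 1 1) hEt)
            value_two)).trans ?_)⟩
      apply Subtype.ext
      rw [conj4_coe, h1]
      rfl
  · rintro ⟨a, x, y, b, rfl⟩
    exact hC.2.2.2.2 a.1 x.1 y.1 b.1

end Pool.Agent.Lib.MP_d55432_al.SIX
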